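import Pool.Agent.Helper56_MG.Base3
import Pool.Agent.Helper56_MG.Stmts

/-!
# Module COV
-/

open Set

namespace Pool.Agent.MG.H34

open Pool.Agent.MG

variable {I : Type} [Idx I]

/-- The value of a point of a condition at any coordinate is a branch of the tree. -/
theorem coord_mem_bS {p : Cond I} {y : Pt I} (hy : y ∈ p.body) (i : I) : y i ∈ bS (p.T i y) := by
  by_cases h : i ∈ p.S
  · exact (hy i h).1
  · rw [p.full' i h y]
    exact fun n => trivial

/-- The relation `H` restricted to the branch `z` of the first variable. -/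
def atB (H : Set (Node × Node)) (z : R) : Set (Node × Node) := {w | w ∈ H ∧ On w.1 z}

theorem mem_rb_atB {H : Set (Node × Node)} {z s x : R} :
    (s, x) ∈ rb (atB H z) ↔ (s, x) ∈ rb H ∧ s = z := by
  constructor
  · intro h
    refine ⟨fun n => (h n).1, eq_of_pre fun n => ?_⟩
    have h1 := (h n).2
    unfold On at h1
    simp only [length_pre] at h1
    exact h1.symm
  · rintro ⟨h, rfl⟩ n
    exact ⟨h n, on_pre _ _⟩

theorem measurable_atB {Ω : Type*} [MeasurableSpace Ω] {H : Ω → Set (Node × Node)} {z : Ω → R}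
    (hH : Measurable H) (hz : Measurable z) : Measurable (fun w => atB (H w) (z w)) := by
  rw [measurable_pair_iff]
  intro s
  have h1 : {w | s ∈ atB (H w) (z w)} = {w | s ∈ H w} ∩ {w | On s.1 (z w)} := by
    ext w
    rfl
  rw [h1]
  exact (hH (measurableSet_mem_pair s)).inter (hz (measurableSet_on s.1))

open Classical in
/-- A name cut to a measurable set. -/
noncomputable def cutN {α : Type} (A : Set (Pt I)) (T : Pt I → Set α) : Pt I → Set α :=
  fun y => if y ∈ A then T y else ∅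

omit [Idx I] in
theorem cutN_mem {α : Type} {A : Set (Pt I)} {T : Pt I → Set α} {y : Pt I} (h : y ∈ A) :
    cutN A T y = T y := by
  simp [cutN, h]

omit [Idx I] in
theorem cutN_notMem {α : Type} {A : Set (Pt I)} {T : Pt I → Set α} {y : Pt I} (h : y ∉ A) :
    cutN A T y = ∅ := by
  simp [cutN, h]

omit [Idx I] in
theorem measurable_cutN {α : Type} {A : Set (Pt I)} (hA : MeasurableSet A) {T : Pt I → Set α}
    (hT : Measurable T) : Measurable (cutN A T) := by
  classical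
  unfold cutN
  exact Measurable.ite hA hT measurable_const

theorem dep_cutN {α : Type} {ρ : I} {A : Set (Pt I)} (hA : Dep ρ (fun y => y ∈ A))
    {T : Pt I → Set α} (hT : Dep ρ T) : Dep ρ (cutN A T) := by
  intro y y' h
  have h1 : (y ∈ A) = (y' ∈ A) := hA y y' h
  by_cases hy : y ∈ A
  · rw [cutN_mem hy, cutN_mem (h1 ▸ hy), hT y y' h]
  · rw [cutN_notMem hy, cutN_notMem (h1 ▸ hy)]

theorem bS_empty : bS (∅ : Set Node) = ∅ := by
  ext x
  constructor
  · intro h
    exact absurd (h 0) (Set.notMem_empty _)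
  · intro h
    exact absurd h (Set.notMem_empty _)

theorem dep_body {ρ : I} {r : Cond I} (hr : r.Below ρ) : Dep ρ (fun y => y ∈ r.body) :=
  fun _ _ h => propext (hr.mem_congr h)

/-- COV. -/
theorem cov (hRel : RelStmt) (hPfs : PfsStmt) (hAvd : AvdStmt) (hPull : PullStmt I)
    (hRaise : RaiseStmt I) (hProp : PropStmt I) (hCst2 : Cst2Stmt I) : CovStmt I := by
  classical
  intro j ε htj hε htnj htε β d hd E hE hno l htl hεl hlβ q hq hqd
  obtain ⟨hR1, -, hR3, hR4, -, hR6, -, -, -, hM1, hM2, -, hMon2, -⟩ := hRel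
  obtain ⟨PS, hPSm, hPS⟩ := hPfs
  obtain ⟨AV, hAVm, hAV⟩ := hAvd
  have hεβ : ε < β := hεl.trans hlβ
  have hjε : j < ε := by
    rw [hε]
    exact (lt_nx j).trans (lt_nx _)
  -- step 1
  obtain ⟨q1, h1q, hq1, ρ1, T1, hερ1, hρ1l, hT1m, hT1d, hT1F, hT1e⟩ :=
    hRaise.2 l htl ε htε hεl β hlβ q hq
  obtain ⟨q2, h21, hq2, -, ρs, H, hH, hHx⟩ :=
    Fr.use (hρ1l.trans hlβ.le) hT1F hερ1 htε hq1
  have hcov : q2.body ⊆ ⋃ k, {y | (y ε, y l) ∈ rb (H k y)} := by
    intro y hy
    have h1 : y l ∈ bS (T1 y) := by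
      rw [← hT1e y (Cond.mem_restr_of_mem (h21 hy))]
      exact coord_mem_bS (h21 hy) l
    obtain ⟨k, hk⟩ := hHx y hy _ h1
    exact Set.mem_iUnion.2 ⟨k, hk⟩
  have hmy : ∀ i : I, Measurable (fun y : Pt I => y i) := fun i => measurable_pi_apply i
  obtain ⟨-, hC2, -, -⟩ := hCst2 β (hProp β).1 (hProp β).2.1
  obtain ⟨q3, h32, hq3, k, hk⟩ := hC2 q2 hq2 (fun k => {y | (y ε, y l) ∈ rb (H k y)})
    (fun k => measurableSet_mem_rb (hmy ε) (hmy l) (hH k).2.1)
    (fun k y y' h => by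
      have h1 : H k y = H k y' :=
        (hH k).2.2.1 y y' fun i hi => h i (hi.trans_le ((hH k).1.trans hεβ.le))
      simp only [Set.mem_ofPred_eq, h1, h ε hεβ, h l hlβ]) hcov
  obtain ⟨hρk, hHm, hHd, hHf, hHF⟩ := hH k
  generalize H k = H0 at hHm hHd hHf hHF hk
  clear hH hHx hcov hC2
  -- step 2
  obtain ⟨q4, h43, hq4, ρ2, T2, hjρ2, hρ2ε, hT2m, hT2d, hT2F, hT2e⟩ :=
    hRaise.2 ε htε j htj hjε β hεβ q3 hq3
  have hT2Fε : Fr ε (fun y => bS (T2 y)) := by
    refine hT2F.raise hρ2ε fun ε' h1 h2 => ?_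
    have h3 : nx j ≤ ε' := nx_le _ _ (lt_of_lt_of_le hjρ2 h1)
    have h4 : ¬ nx j < ε' := fun h5 => by
      have h6 := nx_le _ _ h5
      rw [← hε] at h6
      exact absurd h2 (not_lt.2 h6)
    have h5 : ε' = nx j := le_antisymm (not_lt.1 h4) h3
    rw [h5]
    exact htnj
  have hT2dε : Dep ε T2 := hT2d.mono hρ2ε
  have hH0dε : Dep ε H0 := hHd.mono hρk
  -- step 3
  let Q : ℕ → Pt I → Set Node := fun n y => prT1 (on2 (H0 y) (E n y))
  have hQm : ∀ n, Measurable (Q n) := fun n =>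
    hM1.comp (hMon2.comp (hHm.prodMk (hE n).1))
  have hQd : ∀ n, Dep ε (Q n) := fun n y y' h => by
    show prT1 _ = prT1 _
    rw [hH0dε y y' h, (hE n).2 y y' h]
  have hQb : ∀ n y s, s ∈ bS (Q n y) ↔ ∃ x, (s, x) ∈ rb (H0 y) ∧ x ∈ bS (E n y) := by
    intro n y s
    show s ∈ bS (prT1 _) ↔ _
    rw [hR3]
    simp only [Set.mem_ofPred_eq, hR6]
  have hq4r : VB ε (q4.restr ε) := hq4.restr ε
  have hT2g : ∀ y ∈ (q4.restr ε).body, Good false (T2 y) := by
    intro y hy
    rw [← hT2e y hy]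
    have := q4.good ε y
    rw [htε] at this
    exact this
  have key : ∀ (n : ℕ) (u : Node) (r : Cond I), r ≤ q4.restr ε → VB ε r →
      ¬ r.body ⊆ {y | Good false (T2 y) ∧ u ∈ T2 y ∧ subT (T2 y) u ⊆ Q n y} := by
    intro n u r hr hrV hsub
    have hprem : ∀ y ∈ r.body, Good false (subT (T2 y) u) ∧
        ∀ s ∈ bS (subT (T2 y) u), ∃ x ∈ bS (E n y), (s, x) ∈ rb (H0 y) := by
      intro y hy
      obtain ⟨h1, h2, h3⟩ := hsub hy
      refine ⟨h1.subT h2, fun s hs => ?_⟩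
      obtain ⟨x, hx1, hx2⟩ := (hQb n y s).1 (bS_mono h3 hs)
      exact ⟨x, hx2, hx1⟩
    let T3 : Pt I → Set Node := cutN r.body (fun y => PS (subT (T2 y) u) (H0 y) (E n y))
    have hT3m : Measurable T3 := by
      refine measurable_cutN r.measurableSet_body ?_
      exact hPSm.comp ((((measurable_subT u).comp hT2m).prodMk hHm).prodMk (hE n).1)
    have hT3d : Dep ε T3 := by
      refine dep_cutN (dep_body hrV.below) fun y y' h => ?_
      show PS _ _ _ = PS _ _ _
      rw [hT2dε y y' h, hH0dε y y' h, (hE n).2 y y' h]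
    have hT3F : Fr ε (fun y => bS (T3 y)) := by
      refine (hPull _ ε hρk H0 hHm hHd hHf hHF _ hT2Fε).sub fun y x hx => ?_
      by_cases hy : y ∈ r.body
      · simp only [T3, cutN_mem hy] at hx
        obtain ⟨-, s, hs, hsx⟩ := (hPS _ _ _ (hprem y hy).1 (hHf y) (hprem y hy).2).2 x hx
        exact ⟨s, (mem_bS_subT hs).1, hsx⟩
      · simp only [T3, cutN_notMem hy, bS_empty] at hx
        exact absurd hx (Set.notMem_empty _)
    have hle : Cond.glue r q4 ε ≤ q4 := by
      refine Cond.glue_le_right ?_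
      rw [hrV.below.restr_eq]
      exact hr
    have hgV : VB β (Cond.glue r q4 ε) := by
      refine VB.glue hrV hq4 hεβ.le ?_
      rw [hrV.below.restr_eq]
      exact hr
    refine hno n (Cond.glue r q4 ε) ε T3 hgV
      (hle.trans (h43.trans (h32.trans (h21.trans (h1q.trans hqd))))) hεβ.le hT3m hT3d hT3F ?_
    intro y hy
    have hyr : y ∈ r.body := Cond.glue_le_left hrV.below hy
    simp only [T3, cutN_mem hyr]
    obtain ⟨h1, h2⟩ := hPS _ _ _ (hprem y hyr).1 (hHf y) (hprem y hyr).2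
    exact ⟨h1, fun x hx => (h2 x hx).1⟩
  -- step 4
  obtain ⟨e, he⟩ := exists_surjective_nat (ℕ × Node)
  obtain ⟨-, -, hC3, -⟩ := hCst2 ε (hProp ε).1 (hProp ε).2.1
  obtain ⟨r, hr, hrV, hrD⟩ := hC3 (q4.restr ε) hq4r
    (fun m => {y | Good false (T2 y) ∧ (e m).2 ∈ T2 y ∧ subT (T2 y) (e m).2 ⊆ Q (e m).1 y})
    (fun m => by
      have h1 : {y | Good false (T2 y) ∧ (e m).2 ∈ T2 y ∧ subT (T2 y) (e m).2 ⊆ Q (e m).1 y} =
          {y | Good false (T2 y)} ∩ {y | (e m).2 ∈ T2 y} ∩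
            ⋂ s : Node, ({y | s ∈ subT (T2 y) (e m).2}ᶜ ∪ {y | s ∈ Q (e m).1 y}) := by
        ext y
        simp only [Set.mem_ofPred_eq, Set.mem_inter_iff, Set.mem_iInter, Set.mem_union,
          Set.mem_compl_iff, Set.subset_def]
        constructor
        · rintro ⟨h1, h2, h3⟩
          exact ⟨⟨h1, h2⟩, fun s => by
            by_cases h : s ∈ subT (T2 y) (e m).2
            · exact Or.inr (h3 s h)
            · exact Or.inl h⟩
        · rintro ⟨⟨h1, h2⟩, h3⟩
          exact ⟨h1, h2, fun s hs => (h3 s).resolve_left (fun h => h hs)⟩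
      rw [h1]
      refine ((hT2m (measurableSet_good false)).inter (hT2m (measurableSet_mem_node _))).inter
        (MeasurableSet.iInter fun s => ?_)
      exact (((measurable_subT _).comp hT2m) (measurableSet_mem_node s)).compl.union
        (hQm _ (measurableSet_mem_node s)))
    (fun m y y' h => by
      simp only [Set.mem_ofPred_eq, hT2dε y y' h, hQd (e m).1 y y' h])
    (fun m r hr hrV => key (e m).1 (e m).2 r hr hrV)
  have hrQ : ∀ y ∈ r.body, ∀ n, ∀ u ∈ T2 y, ¬ bS (subT (T2 y) u) ⊆ bS (Q n y) := by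
    intro y hy n u hu hsub
    obtain ⟨m, hm⟩ := he (n, u)
    have h1 := Set.disjoint_left.1 (hrD m) hy
    apply h1
    simp only [Set.mem_ofPred_eq, hm]
    refine ⟨hT2g y (hr hy), hu, ?_⟩
    exact ((hT2g y (hr hy)).subT hu).subset_of_bd (bd_false.trans_subset hsub)
  let T4 : Pt I → Set Node := fun y => AV (T2 y) (fun n => Q n y)
  have hT4m : Measurable T4 := hAVm.comp (hT2m.prodMk (measurable_pi_lambda _ hQm))
  have hT4d : Dep ε T4 := by
    intro y y' h
    show AV _ _ = AV _ _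
    have h1 : (fun n => Q n y) = (fun n => Q n y') := funext fun n => hQd n y y' h
    rw [hT2dε y y' h, h1]
  have hT4 : ∀ y ∈ r.body, Good false (T4 y) ∧ T4 y ⊆ T2 y ∧
      ∀ n, Disjoint (bS (T4 y)) (bS (Q n y)) := fun y hy =>
    hAV _ _ (hT2g y (hr hy)) (hrQ y hy)
  have hrr : r.restr ε ≤ q4.restr ε := by
    rw [hrV.below.restr_eq]
    exact hr
  have hq5 : VB β (Cond.glue r q4 ε) := VB.glue hrV hq4 hεβ.le hrr
  have h54 : Cond.glue r q4 ε ≤ q4 := Cond.glue_le_right hrr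
  have hq5r : (Cond.glue r q4 ε).restr ε = r := by
    rw [Cond.glue_restr r q4 le_rfl, hrV.below.restr_eq]
  have hcond : ∀ y ∈ ((Cond.glue r q4 ε).restr ε).body,
      Good (ty ε) (T4 y) ∧ T4 y ⊆ (Cond.glue r q4 ε).T ε y := by
    intro y hy
    rw [hq5r] at hy
    obtain ⟨h1, h2, -⟩ := hT4 y hy
    rw [htε, Cond.glue_T_ge r q4 le_rfl, hT2e y (hr hy)]
    exact ⟨h1, h2⟩
  have hV6 : VB β ((Cond.glue r q4 ε).setT ε T4 hT4m hT4d) := by
    refine hq5.setT hεβ T4 hT4m hT4d hcond fun _ => ?_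
    rw [hq5r]
    refine LV_of_Fr le_rfl (T' := cutN r.body T4) (measurable_cutN r.measurableSet_body hT4m)
      (dep_cutN (dep_body hrV.below) hT4d) (hT2Fε.sub fun y x hx => ?_)
      fun y hy => (cutN_mem hy).symm
    by_cases hy : y ∈ r.body
    · simp only [cutN_mem hy] at hx
      exact bS_mono (hT4 y hy).2.1 hx
    · simp only [cutN_notMem hy, bS_empty] at hx
      exact absurd hx (Set.notMem_empty _)
  have h65 : (Cond.glue r q4 ε).setT ε T4 hT4m hT4d ≤ Cond.glue r q4 ε :=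
    Cond.setT_le _ _ _ _ hcond
  refine ⟨(Cond.glue r q4 ε).setT ε T4 hT4m hT4d,
    h65.trans (h54.trans (h43.trans (h32.trans (h21.trans h1q)))), hV6,
    fun y => prT2 (atB (H0 y) (y ε)), hM2.comp (measurable_atB hHm (hmy ε)), ?_, ?_⟩
  · intro y y' h
    show prT2 _ = prT2 _
    rw [hH0dε y y' fun i hi => h i (hi.trans (lt_nx ε)), h ε (lt_nx ε)]
  · intro y hy
    have hy5 := h65 hy
    have hyr : y ∈ r.body := Cond.glue_le_left hrV.below hy5
    have hy3 : y ∈ q3.body := h43 (h54 hy5)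
    have hyε : y ε ∈ bS (T4 y) := by
      have h1 := coord_mem_bS hy ε
      rw [Cond.setT_T_self] at h1
      · exact h1
      · rw [htε]
        exact (hT4 y hyr).1
    refine ⟨?_, fun n => ?_⟩
    · rw [hR4]
      exact ⟨y ε, mem_rb_atB.2 ⟨hk hy3, rfl⟩⟩
    · rw [Set.disjoint_left]
      intro x hx hxE
      rw [hR4] at hx
      obtain ⟨s, hs⟩ := hx
      obtain ⟨h1, rfl⟩ := mem_rb_atB.1 hs
      exact Set.disjoint_left.1 ((hT4 y hyr).2.2 n) hyε ((hQb n y _).2 ⟨x, h1, hxE⟩)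

end Pool.Agent.MG.H34
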