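import Pool.Agent.Helper56_MG.Base3
import Pool.Agent.Helper56_MG.Stmts

/-!
# Module RALL
-/

open Set

namespace Pool.Agent.MG.H34

open Pool.Agent.MG

variable {I : Type} [Idx I]

theorem Dat.Bel.mono' {𝔡 : Dat I} {d d' : Cond I} (h : 𝔡.Bel I d') (hd : d' ≤ d) : 𝔡.Bel I d :=
  fun y hy j => (h y hy j).trans hd

theorem rp_bt : Rp I (bt : I) := by
  intro p hp C hC f _ hf
  obtain ⟨y0, hy0⟩ := p.body_nonempty
  have hconst : ∀ y, f y = f y0 := fun y =>
    hf y y0 fun i hi => absurd hi (not_lt.2 (bt_le i))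
  have h1 : (C ∩ f y0).Infinite ∨ (C \ f y0).Infinite := by
    rw [← Set.infinite_union, Set.inter_union_diff]
    exact hC
  rcases h1 with h1 | h1
  · refine ⟨p, le_rfl, hp, C ∩ f y0, Set.inter_subset_left, h1, true, fun y _ n hn => ?_⟩
    rw [hconst y]
    exact ⟨fun _ => rfl, fun _ => hn.2⟩
  · refine ⟨p, le_rfl, hp, C \ f y0, Set.diff_subset, h1, false, fun y _ n hn => ?_⟩
    rw [hconst y]
    exact ⟨fun h => absurd h hn.2, fun h => by simp at h⟩

/-- RALL. -/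
theorem rall (hRm : RmStmt I) (hRs : RsStmt I) (hInt : IntStmt I) (hTra : TraStmt I)
    (hAsm : AsmStmt I) : RallStmt I := by
  classical
  intro β
  induction β using (wellFounded_lt (α := I)).induction with
  | _ β ih =>
  by_cases hbt : β = bt
  · rw [hbt]
    exact rp_bt
  have hbtβ : bt < β := lt_of_le_of_ne (bt_le β) (Ne.symm hbt)
  by_cases hsucc : ∃ α, nx α = β
  · obtain ⟨α, rfl⟩ := hsucc
    cases ht : ty α with
    | true => exact hRm α ht (ih α (lt_nx α))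
    | false => exact hRs α ht fun ρ hρ => ih ρ (hρ.trans_lt (lt_nx α))
  have hlim : ∀ i, i < β → nx i < β := fun i hi =>
    lt_of_le_of_ne (nx_le i β hi) fun h => hsucc ⟨i, h⟩
  intro p hp C hC f hfm hfd
  by_cases hbd : ∃ γ, γ < β ∧ Dep γ f
  · obtain ⟨γ, hγ, hγf⟩ := hbd
    obtain ⟨r, hr, hrV, B, hBC, hB, i, hi⟩ := ih γ hγ (p.restr γ) (hp.restr γ) C hC f hfm hγf
    have hrr : r.restr γ ≤ p.restr γ := by
      rw [hrV.below.restr_eq]
      exact hr
    refine ⟨Cond.glue r p γ, Cond.glue_le_right hrr, VB.glue hrV hp hγ.le hrr, B, hBC, hB, i, ?_⟩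
    intro y hy
    exact hi y (Cond.glue_le_left hrV.below hy)
  obtain ⟨C0, hC0, hC0c, hC0f⟩ := exists_countable_dep_nat hfm (Set.Iio β) hfd
  have hcof : ∀ γ, γ < β → ∃ i ∈ C0, γ ≤ i := by
    intro γ hγ
    by_contra hcon
    push Not at hcon
    exact hbd ⟨γ, hγ, fun y y' h => hC0f y y' fun i hi => h i (hcon i hi)⟩
  have hne : C0.Nonempty := by
    obtain ⟨i, hi, _⟩ := hcof bt hbtβ
    exact ⟨i, hi⟩
  obtain ⟨e, he⟩ := hC0c.exists_eq_range hne
  have heβ : ∀ n, e n < β := fun n => hC0 (by rw [he]; exact ⟨n, rfl⟩)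
  let α : ℕ → I := fun n => Nat.rec (e 0) (fun n a => nx (max a (e n))) n
  have hαs : ∀ n, α (n + 1) = nx (max (α n) (e n)) := fun n => rfl
  have hαβ : ∀ n, α n < β := by
    intro n
    induction n with
    | zero => exact heβ 0
    | succ n ihn =>
      rw [hαs]
      exact hlim _ (max_lt ihn (heβ n))
  have hαlt : ∀ n, α n < α (n + 1) := fun n => by
    rw [hαs]
    exact (le_max_left _ _).trans_lt (lt_nx _)
  have hαc : ∀ γ, γ < β → ∃ n, γ < α n := by
    intro γ hγ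
    obtain ⟨i, hi, hγi⟩ := hcof γ hγ
    rw [he] at hi
    obtain ⟨n, rfl⟩ := hi
    refine ⟨n + 1, ?_⟩
    rw [hαs]
    exact (hγi.trans (le_max_right _ _)).trans_lt (lt_nx _)
  have hαm : StrictMono α := strictMono_nat_of_lt_succ hαlt
  have hRp : ∀ n, Rp I (α n) := fun n => ih (α n) (hαβ n)
  by_cases hS : ∀ n, Star I β (α n) f p C false
  · obtain ⟨q, hq, hqV, B, hBC, hB, h⟩ :=
      hAsm β α hαlt hαβ hαc hRp f hfm hfd p hp C hC false hS
    exact ⟨q, hq, hqV, B, hBC, hB, false, h⟩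
  · rw [not_forall] at hS
    obtain ⟨n, hn⟩ := hS
    unfold Star at hn
    push Not at hn
    obtain ⟨d, hdV, hdp, C', hC'C, hC', hno⟩ := hn
    have hS' : ∀ m, Star I β (α m) f d C' true := by
      intro m d' hd'V hd'd C'' hC''C' hC''
      obtain ⟨i, 𝔡, hOk, hBel, hDC⟩ := hInt β (α (max n m)) (hαβ _) (hRp _) f hfm hfd d' hd'V C'' hC''
      cases i with
      | false =>
        exfalso
        obtain ⟨𝔡', hOk', hBel', hC1⟩ := hTra β (α (max n m)) (α n) (hαβ _)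
          (hαm.monotone (le_max_left _ _)) f hfm hfd d' hd'V false 𝔡 hOk hBel
        exact hno 𝔡' hOk' (Dat.Bel.mono' hBel' hd'd) (by rw [hC1]; exact hDC.trans hC''C')
      | true =>
        obtain ⟨𝔡', hOk', hBel', hC1⟩ := hTra β (α (max n m)) (α m) (hαβ _)
          (hαm.monotone (le_max_right _ _)) f hfm hfd d' hd'V true 𝔡 hOk hBel
        exact ⟨𝔡', hOk', hBel', by rw [hC1]; exact hDC⟩
    obtain ⟨q, hq, hqV, B, hBC, hB, h⟩ :=
      hAsm β α hαlt hαβ hαc hRp f hfm hfd d hdV C' hC' true hS'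
    exact ⟨q, hq.trans hdp, hqV, B, hBC.trans hC'C, hB, true, h⟩

end Pool.Agent.MG.H34
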